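import Pool.Agent.Helper6.NS.Defs
import Pool.Agent.Helper73.KU.M2

/-! Row M1 of the table ku_mods (helper61 for helper6): simple objects. -/

namespace Pool.Agent.Helper61.KU

open CategoryTheory CategoryTheory.Limits CategoryTheory.Pretriangulated Module
open CategoryTheory.Triangulated
open Pool.Agent.Helper6.KE Pool.Agent.Helper6.NS

universe v u w

variable {C : Type u} [Category.{v} C] [Preadditive C] [HasZeroObject C] [HasShift C ℤ]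
  [∀ n : ℤ, (shiftFunctor C n).Additive] [Pretriangulated C]

/-- M1a -/
theorem Smp_toCo {t : TStructure C} {T : C} {p : ℤ} (h : Smp t T p) : CoSmp t T p := by
  refine ⟨h.le, h.ge, ?_⟩
  intro X Y g q δ hT hX hg
  rw [t.isGE_iff_orthogonal (p - 1) p (by omega)]
  intro Z f hZ
  by_cases hφ : f ≫ δ = 0
  · obtain ⟨f', hf'⟩ := Triangle.coyoneda_exact₃ _ hT f hφ
    have h0 : f' = 0 := by
      haveI : t.IsGE (Triangle.mk g q δ).obj₂ p := hX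
      exact t.zero f' (p - 1) p
    rw [hf', h0]
    exact zero_comp
  · exfalso
    let e : (Z⟦(-1 : ℤ)⟧)⟦(1 : ℤ)⟧ ≅ Z := (shiftEquiv C (1 : ℤ)).counitIso.app Z
    obtain ⟨φ, hφ'⟩ := (shiftFunctor C (1 : ℤ)).map_surjective (e.hom ≫ f ≫ δ)
    have hφ0 : φ ≠ 0 := by
      rintro rfl
      rw [Functor.map_zero] at hφ'
      apply hφ
      rw [← cancel_epi e.hom, ← hφ', comp_zero]
    have hZ' : t.IsLE (Z⟦(-1 : ℤ)⟧) p := t.isLE_shift Z (p - 1) (-1) p (by omega)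
    obtain ⟨F, i, δ', hF⟩ := distinguished_cocone_triangle₁ φ
    have hFp : t.IsLE F p := h.epi i φ δ' hF hZ' hφ0
    have hφg : φ ≫ g = 0 := by
      apply (shiftFunctor C (1 : ℤ)).map_injective
      rw [Functor.map_comp, hφ', Functor.map_zero, Category.assoc, Category.assoc]
      have h1 : δ ≫ g⟦(1 : ℤ)⟧' = 0 := comp_distTriang_mor_zero₃₁ _ hT
      rw [h1, comp_zero, comp_zero]
    obtain ⟨g', hg'⟩ := Triangle.yoneda_exact₃ _ hF g hφg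
    have h0 : g' = 0 := by
      haveI : t.IsLE ((Triangle.mk i φ δ').obj₁⟦(1 : ℤ)⟧) (p - 1) :=
        t.isLE_shift F p 1 (p - 1) (by omega)
      exact t.zero g' (p - 1) p
    apply hg
    rw [hg', h0]
    exact comp_zero

/-- M1b -/
theorem CoSmp_toSmp {t : TStructure C} {T : C} {p : ℤ} (h : CoSmp t T p) : Smp t T p := by
  refine ⟨h.le, h.ge, ?_⟩
  intro X F i f δ hT hX hf
  rw [t.isLE_iff_orthogonal p (p + 1) rfl]
  intro Z m hZ
  have hZ' : t.IsGE (Z⟦(1 : ℤ)⟧) p := t.isGE_shift Z (p + 1) 1 p (by omega)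
  by_cases hφ : δ ≫ m⟦(1 : ℤ)⟧' = 0
  · obtain ⟨g', hg'⟩ := Triangle.yoneda_exact₃ _ (rot_of_distTriang _ hT) (m⟦(1 : ℤ)⟧') hφ
    have h0 : g' = 0 := by
      haveI : t.IsLE ((Triangle.mk i f δ).rotate.obj₁⟦(1 : ℤ)⟧) (p - 1) :=
        t.isLE_shift X p 1 (p - 1) (by omega)
      exact t.zero g' (p - 1) p
    apply (shiftFunctor C (1 : ℤ)).map_injective
    rw [h0, comp_zero] at hg'
    exact hg'.trans (Functor.map_zero _ _ _).symm
  · exfalso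
    obtain ⟨Y, q, δ', hY⟩ := distinguished_cocone_triangle (δ ≫ m⟦(1 : ℤ)⟧')
    have hYp : t.IsGE Y p := h.mono _ q δ' hY hZ' hφ
    have hfψ : f ≫ δ ≫ m⟦(1 : ℤ)⟧' = 0 := by
      have h1 : f ≫ δ = 0 := comp_distTriang_mor_zero₂₃ _ hT
      rw [← Category.assoc, h1, zero_comp]
    obtain ⟨g', hg'⟩ := Triangle.coyoneda_exact₂ _ (inv_rot_of_distTriang _ hY) f hfψ
    have h0 : g' = 0 := by
      haveI : t.IsGE (Triangle.mk (δ ≫ m⟦(1 : ℤ)⟧') q δ').invRotate.obj₁ (p + 1) :=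
        t.isGE_shift Y p (-1) (p + 1) (by omega)
      exact t.zero g' p (p + 1)
    apply hf
    rw [hg', h0]
    exact zero_comp

/-- M1c -/
theorem Smp_shift {t : TStructure C} {T : C} {p : ℤ} (h : Smp t T p) (a q : ℤ) (hq : a + q = p) :
    Smp t (T⟦a⟧) q :=
  Pool.Agent.Helper73.KU.smp_shift h a q hq

/-- M1d: a simple object of the heart in the textbook sense is `Smp`. -/
theorem Smp_of_simple [IsTriangulated C] {t : TStructure C} {T : C} (hT : t.heart T)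
    (hs : ∀ {E Q : C} (f : E ⟶ T) (g : T ⟶ Q) (δ : Q ⟶ E⟦(1 : ℤ)⟧),
      Triangle.mk f g δ ∈ distTriang C → t.heart E → t.heart Q → IsZero E ∨ IsZero Q) :
    Smp t T 0 := by
  rw [t.mem_heart_iff] at hT
  obtain ⟨hle, hge⟩ := hT
  refine ⟨hle, hge, ?_⟩
  intro X F i f δ hD hX hf
  have hX1 : t.IsLE (X⟦(1 : ℤ)⟧) (-1) := t.isLE_shift X 0 1 (-1) (by omega)
  have hF1 : t.IsLE (F⟦(1 : ℤ)⟧) 0 :=
    t.isLE₂ _ (rot_of_distTriang _ (rot_of_distTriang _ hD)) 0 hle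
      (t.isLE_of_le (X⟦(1 : ℤ)⟧) (-1) 0 (by omega))
  obtain ⟨E, u, w, hE⟩ := distinguished_cocone_triangle₁ (δ ≫ (t.truncGEπ 0).app (F⟦(1 : ℤ)⟧))
  have hQge : t.IsGE ((t.truncGE 0).obj (F⟦(1 : ℤ)⟧)) 0 := inferInstance
  have hQle : t.IsLE ((t.truncGE 0).obj (F⟦(1 : ℤ)⟧)) 0 := inferInstance
  have hEge : t.IsGE E 0 :=
    t.isGE₂ _ (inv_rot_of_distTriang _ hE) 0 (by
      haveI : t.IsGE (((t.truncGE 0).obj (F⟦(1 : ℤ)⟧))⟦(-1 : ℤ)⟧) 1 :=
        t.isGE_shift _ 0 (-1) 1 (by omega)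
      exact t.isGE_of_ge (((t.truncGE 0).obj (F⟦(1 : ℤ)⟧))⟦(-1 : ℤ)⟧) 0 1 (by omega)) hge
  have hEle : t.IsLE E 0 := by
    have H := someOctahedron rfl (rot_of_distTriang _ (rot_of_distTriang _ hD))
      (rot_of_distTriang _ (t.triangleLTGE_distinguished 0 (F⟦(1 : ℤ)⟧)))
      (rot_of_distTriang _ hE)
    have h1 : t.IsLE (((t.truncLT 0).obj (F⟦(1 : ℤ)⟧))⟦(1 : ℤ)⟧) (-1) := by
      haveI : t.IsLE ((t.truncLT 0).obj (F⟦(1 : ℤ)⟧)) 0 :=
        t.isLE_of_le _ (0 - 1) 0 (by omega)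
      exact t.isLE_shift _ 0 1 (-1) (by omega)
    have h2 : t.IsLE (E⟦(1 : ℤ)⟧) (-1) := t.isLE₂ _ H.mem (-1) hX1 h1
    exact t.isLE_of_shift E 0 1 (-1) (by omega)
  rcases hs u _ w hE ((t.mem_heart_iff E).2 ⟨hEle, hEge⟩)
      ((t.mem_heart_iff _).2 ⟨hQle, hQge⟩) with h0 | h0
  · exfalso
    have h1 : f ≫ δ = 0 := comp_distTriang_mor_zero₂₃ _ hD
    obtain ⟨g, hg⟩ := Triangle.coyoneda_exact₂ _ hE f (by
      change f ≫ δ ≫ (t.truncGEπ 0).app (F⟦(1 : ℤ)⟧) = 0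
      rw [← Category.assoc, h1, zero_comp])
    apply hf
    rw [hg]
    have h2 : g = 0 := h0.eq_of_tgt _ _
    rw [h2]
    exact zero_comp
  · have h1 : t.IsLE (F⟦(1 : ℤ)⟧) (-1) :=
      (t.isLE_iff_isZero_truncGE_obj (-1) 0 (by omega) _).2 h0
    exact t.isLE_of_shift F 0 1 (-1) (by omega)

end Pool.Agent.Helper61.KU
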